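import Pool.Agent.Lib.MP_53cbe0_co.Three
import Pool.Agent.Lib.MP_53cbe0_co.Exist

/-!
# Cyclic packings of `PG(3,q)`

`PG(3,q)` is the projective space of `Fin 4 → K`, where `K` is a finite field with `q` elements.
It admits a cyclic packing if and only if `q` is congruent to `2` modulo `3`.

* `q = 1` modulo `3`: an element of order `3` of the cyclic group would fix a second plane.
* `q = 0` modulo `3`: the positions of the spread line in the fixed plane form a planar difference
  set `D`, and a counting argument shows that `-q * ∑ D` is not in `D`, while the multiplier
  theorem gives that it is.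
* `q = 2` modulo `3`: the lines spanned by `(w, 0)` and `(w ^ q, Tr w)` in `GF(q^3) × GF(q)` form
  a spread whose translates under the norm one group are disjoint.
-/

set_option autoImplicit false

namespace Pool.Agent.Results.MP_53cbe0_co.CyclicPackings

open Pool.Agent.Lib.MP_53cbe0_co

universe u

/-- For every finite field `K`, the projective space `PG(3,K)` admits a cyclic packing if and only
if the number of elements of `K` is congruent to `2` modulo `3`. -/
theorem result (K : Type u) [Field K] [Finite K] :
    (∃ Pk, IsCyclicPacking K (Fin 4 → K) Pk) ↔ Nat.card K % 3 = 2 := by
  have h4 : Module.finrank K (Fin 4 → K) = 4 := by simp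
  constructor
  · rintro ⟨Pk, h⟩
    exact card_mod_three h4 h
  · intro h
    exact exists_cyclicPacking h4 h

end Pool.Agent.Results.MP_53cbe0_co.CyclicPackings
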